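import Pool.Agent.NE.Stmts

set_option autoImplicit false

open Finset Filter Topology

noncomputable section

namespace Pool.Agent.NE.H10

theorem nn_succ (N : ℕ → ℕ) (t : ℕ) : nn N (t + 1) = nn N t + (N t - 1) := by
  unfold nn
  rw [Finset.sum_range_succ, add_assoc]

theorem nnb : NnbStmt := by
  intro N hN
  have h3 := nn_succ N
  have h2 : ∀ t, t + 1 ≤ nn N t := by
    intro t
    induction t with
    | zero => exact le_of_eq (by unfold nn; simp)
    | succ t ih =>
      have := h3 t
      have := hN t
      omega
  have h4 : Monotone (nn N) := monotone_nat_of_le_succ fun t => by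
    rw [h3 t]
    exact Nat.le_add_right _ _
  have h5 : ∀ T i, 1 ≤ i → i < nn N T → ∃ t m, 1 ≤ m ∧ m < N t ∧ i = nn N t + (m - 1) := by
    intro T
    induction T with
    | zero =>
      intro i h1 hi
      have h0 : nn N 0 = 1 := by unfold nn; simp
      omega
    | succ T ih =>
      intro i h1 hi
      by_cases h : i < nn N T
      · exact ih i h1 h
      · rw [h3 T] at hi
        exact ⟨T, i - nn N T + 1, by omega, by omega, by omega⟩
  have h6 : ∀ t m t' m', 1 ≤ m → m < N t → 1 ≤ m' → m' < N t' → t < t' →
      nn N t + (m - 1) < nn N t' + (m' - 1) := by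
    intro t m t' m' a b c d h
    have h7 : nn N (t + 1) ≤ nn N t' := h4 h
    rw [h3 t] at h7
    omega
  refine ⟨fun t => ?_, h2, h3, h4, fun i hi => h5 i i hi (h2 i), ?_, ?_⟩
  · have h7 : us t ≤ t := Nat.unpair_left_le t
    have h8 := h2 t
    omega
  · intro t m t' m' a b c d h
    rcases lt_trichotomy t t' with h7 | h7 | h7
    · have := h6 t m t' m' a b c d h7
      omega
    · subst h7
      exact ⟨rfl, by omega⟩
    · have := h6 t' m' t m c d a b h7
      omega
  · intro k r
    refine ⟨Nat.pair k r, Nat.right_le_pair k r, ?_⟩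
    unfold us
    rw [Nat.unpair_pair]

end Pool.Agent.NE.H10
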