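import Pool.Agent.NE.Stmts

set_option autoImplicit false

open Finset Filter Topology

noncomputable section

namespace Pool.Agent.NE.H10

theorem vec (hA : AncStmt) (hT : TrfStmt) : VecStmt := by
  intro N p s σ θ hTr Z _ _ L
  obtain ⟨hσ, hθ, -⟩ := hT N p s σ θ hTr
  constructor
  · intro n T a hn hnT
    obtain ⟨-, h2, -, -⟩ := hA σ (nn N T) fun i hi _ => hσ i hi
    have hmap : ∀ j ∈ range (nn N T), anc σ n j ∈ range n := by
      intro j hj
      rw [mem_range] at hj ⊢
      exact (h2 n j hn hj).1
    unfold J
    rw [← Finset.sum_fiberwise_of_maps_to hmap]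
    refine Finset.sum_congr rfl fun i _ => ?_
    unfold S
    rw [Finset.smul_sum, Finset.smul_sum]
    refine Finset.sum_congr rfl fun j hj => ?_
    have hj' := (Finset.mem_filter.1 hj).2
    unfold sp
    rw [hj', smul_smul, smul_smul]
    congr 1
    rw [div_eq_mul_inv]
    ring
  · intro t i hi
    obtain ⟨h1, -, -, -⟩ := hA σ (nn N t) fun i hi _ => hσ i hi
    have hf : ((range (nn N t)).filter fun j => anc σ (nn N t) j = i) = {i} := by
      ext j
      rw [Finset.mem_filter, Finset.mem_singleton, mem_range]
      constructor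
      · rintro ⟨h3, h4⟩
        rwa [h1 (nn N t) j h3] at h4
      · rintro rfl
        exact ⟨hi, h1 (nn N t) j hi⟩
    unfold S ms cl
    rw [hf, Finset.sum_singleton, Finset.sum_singleton, smul_smul,
      inv_mul_cancel₀ (ne_of_gt (hθ t i hi)), one_smul]

end Pool.Agent.NE.H10
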